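import Pool.Agent.R409.RG.Art
import Pool.Agent.R409.RJ.Rat
import Pool.Agent.R409.RJ.Der

/-!
# Deligne's conjecture for twists as the rationality of limits of finite sums of point counts

Let `A/ℚ` be an abelian variety of dimension `d`, `F` an abelian field of conductor `f` with group `G`,
and for `X > 0` let `N(X) = ∑_σ N_σ(X) σ` in `ℂ[G]` with the finite sums

`N_σ(X) = ∑ κ_γ(k log p / X) tr(Frob_p^k) / (k p^k)`, `κ_γ(u) = e^{iγu} / Γ(1 + u)`,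

over the primes `p ∤ f` and the `k ≥ 1` with `p^k ≤ exp (exp (κ X))` and `σ_p^k = σ`. We prove that

`τ^d exp (N(X)) / Ω = 𝓛 + O(1/X)` in `ℂ[G]`, `τ = ∑_a e^{2πia/f} σ_a⁻¹`,

where `𝓛` is the element with `ψ(𝓛) = 𝓛_C(A, ψ)`, and that Q1 for `A` and `F` (Galois equivariance of
the numbers `𝓛_C(A, ψ)`) holds if and only if the coefficients on the left tend to rational numbers,
along one sequence `X → ∞`.
-/

set_option autoImplicit false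

namespace Pool.Agent.Results.MP_21281f_nt.RationalLimits

open Filter Topology Asymptotics

section defs

variable {G : Type} [CommGroup G]

/-- `σ_p` on `F`, for `p` prime to `f`; `res` is the restriction `(ℤ/f)ˣ → G`, `a ↦ σ_a`. -/
noncomputable def sg (f : ℕ) (res : (ZMod f)ˣ →* G) (p : ℕ) : G := by
  classical
  exact if h : p.Coprime f then res (ZMod.unitOfCoprime p h) else 1

/-- `L_C(A, ψ, s) = ∏_{p ∤ f} ∏_j (1 - α_{p,j} ψ(p) p^{-s})⁻¹`, with `P_p(A, t) = ∏_j (1 - α_{p,j} t)`. -/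
noncomputable def LFun (f : ℕ) (res : (ZMod f)ˣ →* G) {n : ℕ} (α : ℕ → Fin n → ℂ) (ψ : G →* ℂˣ)
    (s : ℂ) : ℂ :=
  ∏' p : {p : Nat.Primes // ¬ (p : ℕ) ∣ f},
    ∏ j, (1 - α p.1 j * ((ψ (sg f res p.1) : ℂˣ) : ℂ) * ((p.1 : ℕ) : ℂ) ^ (-s))⁻¹

/-- `F` is analytic at `1`, meromorphic at the points of the real segment `[1, 3/2]`, and it is
`L_C(A, ψ, s)` for `Re s > 3/2`. -/
def IsContinuation (f : ℕ) (res : (ZMod f)ˣ →* G) {n : ℕ} (α : ℕ → Fin n → ℂ) (ψ : G →* ℂˣ)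
    (F : ℂ → ℂ) : Prop :=
  AnalyticAt ℂ F 1 ∧ (∀ x : ℝ, 1 ≤ x → x ≤ 3 / 2 → MeromorphicAt F (x : ℂ)) ∧
    ∀ s : ℂ, 3 / 2 < s.re → F s = LFun f res α ψ s

/-- The Gauss sum `τ^*(ψ) = ∑_a ψ(a) e^{2πia/f}`. -/
noncomputable def gauss (f : ℕ) [NeZero f] (res : (ZMod f)ˣ →* G) (ψ : G →* ℂˣ) : ℂ :=
  ∑ a : (ZMod f)ˣ, ((ψ (res a) : ℂˣ) : ℂ) *
    Complex.exp (2 * Real.pi * Complex.I * ((a : ZMod f).val : ℂ) / f)

/-- `𝓛_C(A, ψ) = τ^*(ψ⁻¹)^d L_C(A, ψ, 1) / Ω`. -/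
noncomputable def calL (f : ℕ) [NeZero f] (res : (ZMod f)ˣ →* G) (d : ℕ) (Ω : ℂ)
    (F : (G →* ℂˣ) → ℂ → ℂ) (ψ : G →* ℂˣ) : ℂ :=
  gauss f res ψ⁻¹ ^ d * F ψ 1 / Ω

/-- The conjugate `g ∘ ψ` of a character by an automorphism `g` of `ℂ`. -/
noncomputable def conj (g : ℂ ≃+* ℂ) (ψ : G →* ℂˣ) : G →* ℂˣ :=
  (Units.map ((g : ℂ →+* ℂ) : ℂ →* ℂ)).comp ψ

/-- The weight `κ_γ(u) = e^{iγu} / Γ(1 + u)`. -/
noncomputable def weight (γ u : ℝ) : ℂ :=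
  Complex.exp (Complex.I * (γ * u)) / Complex.Gamma (1 + u)

/-- `N_σ(X)`: the sum of `κ_γ(k log p / X) (∑_j α_{p,j}^k) / (k p^k)` over the primes `p ∤ f` and the
`k ≥ 1` with `p^k ≤ exp (exp (κ X))` and `σ_p^k = σ`. -/
noncomputable def count (f : ℕ) (res : (ZMod f)ˣ →* G) {n : ℕ} (α : ℕ → Fin n → ℂ)
    (γ κ X : ℝ) (σ : G) : ℂ :=
  ∑ᶠ x ∈ {x : {p : Nat.Primes // ¬ (p : ℕ) ∣ f} × ℕ | 1 ≤ x.2 ∧
      ((x.1.1 : ℕ) : ℝ) ^ x.2 ≤ Real.exp (Real.exp (κ * X)) ∧ sg f res x.1.1 ^ x.2 = σ},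
    weight γ (x.2 * Real.log ((x.1.1 : ℕ) : ℝ) / X) * (∑ j, α x.1.1 j ^ x.2) /
      (x.2 * ((x.1.1 : ℕ) : ℂ) ^ x.2)

variable [Finite G]

/-- The element `∑_g f(g) g` of the group ring. -/
noncomputable def elt (f : G → ℂ) : MonoidAlgebra ℂ G :=
  MonoidAlgebra.ofCoeff (Finsupp.equivFunOnFinite.symm f)

/-- The exponential of `ℂ[G]`: its coefficients are those of `∑_n x^n / n!`. -/
noncomputable def gexp (x : MonoidAlgebra ℂ G) : MonoidAlgebra ℂ G :=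
  elt fun g => ∑' n : ℕ, (x ^ n).coeff g / (n.factorial : ℂ)

/-- `τ = ∑_a e^{2πia/f} σ_a⁻¹` in `ℂ[G]`. -/
noncomputable def gaussEl (f : ℕ) [NeZero f] (res : (ZMod f)ˣ →* G) : MonoidAlgebra ℂ G :=
  ∑ a : (ZMod f)ˣ, MonoidAlgebra.single (res a)⁻¹
    (Complex.exp (2 * Real.pi * Complex.I * ((a : ZMod f).val : ℂ) / f))

/-- `τ^d exp (N(X)) / Ω` in `ℂ[G]`. -/
noncomputable def approx (f : ℕ) [NeZero f] (res : (ZMod f)ˣ →* G) {n : ℕ} (α : ℕ → Fin n → ℂ)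
    (d : ℕ) (Ω : ℂ) (γ κ X : ℝ) : MonoidAlgebra ℂ G :=
  Ω⁻¹ • (gaussEl f res ^ d * gexp (elt (count f res α γ κ X)))

/-- The value of `χ` on `ℂ[G]`. -/
noncomputable def ev (χ : G →* ℂˣ) : MonoidAlgebra ℂ G →ₐ[ℂ] ℂ :=
  MonoidAlgebra.lift ℂ ℂ G ((Units.coeHom ℂ).comp χ)

end defs

section bridge

open Pool.Agent.R409.RC Pool.Agent.R409.RF Pool.Agent.R409.RG Pool.Agent.W189.LC

variable {G : Type} [CommGroup G] {f : ℕ} {res : (ZMod f)ˣ →* G} {n : ℕ} {α : ℕ → Fin n → ℂ}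

theorem weight_eq {γ u : ℝ} : weight γ u = Pool.Agent.W187.S2.kk γ u := by
  unfold weight Pool.Agent.W187.S2.kk Pool.Agent.W189.ML.om
  have h1 : Complex.Gamma (1 + u) = ((Real.Gamma (1 + u) : ℝ) : ℂ) := by
    rw [← Complex.Gamma_ofReal]
    push_cast
    rfl
  rw [h1, div_eq_mul_inv]
  push_cast
  congr 2
  ring

/-- the norms -/
noncomputable def qS (f : ℕ) (p : {p : Nat.Primes // ¬ (p : ℕ) ∣ f}) : ℝ := ((p.1 : ℕ) : ℝ)

theorem two_le (p : {p : Nat.Primes // ¬ (p : ℕ) ∣ f}) : 2 ≤ qS f p := by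
  unfold qS
  exact_mod_cast p.1.2.two_le

theorem qS_sum {σ : ℝ} (hσ : 1 < σ) : Summable fun p => qS f p ^ (-σ) :=
  (Nat.Primes.summable_rpow.2 (by linarith : -σ < -1)).subtype _

/-- the set of the pairs in the sums -/
def PS (f : ℕ) (θ T : ℝ) : Set ({p : Nat.Primes // ¬ (p : ℕ) ∣ f} × ℕ) :=
  {x | 1 ≤ x.2 ∧ qS f x.1 ^ x.2 ≤ Real.exp (Real.exp (θ * T))}

theorem PS_finite (θ T : ℝ) : (PS f θ T).Finite := by
  have E : XD (0 : ℝ) (qS f) (fun (_ : {p : Nat.Primes // ¬ (p : ℕ) ∣ f}) (_ : Fin 0) =>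
      (0 : ℂ)) :=
    { two_le := two_le
      sum := fun σ hσ => qS_sum hσ
      norm_le := fun v j => j.elim0 }
  have h1 := E.finite_fr (Real.exp (θ * T))
  refine (h1.image fun x => (x.1, x.2 + 1)).subset ?_
  rintro ⟨v, k⟩ ⟨h2, h3⟩
  refine ⟨(v, k - 1), ?_, by
    simp only [Prod.mk.injEq, true_and]
    have : 1 ≤ k := h2
    omega⟩
  show Pool.Agent.W189.LC.fr (qS f) (v, k - 1) ≤ _
  unfold Pool.Agent.W189.LC.fr
  simp only
  have h4 : ((k - 1 : ℕ) : ℝ) + 1 = k := by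
    have : 1 ≤ k := h2
    rw [Nat.cast_sub this]
    push_cast
    ring
  rw [h4, ← Real.log_pow]
  exact (Real.log_le_iff_le_exp (pow_pos (E.q_pos v) k)).2 h3

/-- the parameters -/
noncomputable def al (f : ℕ) (res : (ZMod f)ˣ →* G) (α : ℕ → Fin n → ℂ) (ψ : G →* ℂˣ)
    (p : {p : Nat.Primes // ¬ (p : ℕ) ∣ f}) (j : Fin n) : ℂ :=
  α p.1 j * ((ψ (sg f res p.1) : ℂˣ) : ℂ)

variable [Finite G]

theorem norm_chi (χ : G →* ℂˣ) (g : G) : ‖((χ g : ℂˣ) : ℂ)‖ = 1 := by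
  refine Complex.norm_eq_one_of_pow_eq_one (n := Nat.card G) ?_ Nat.card_pos.ne'
  rw [← Units.val_pow_eq_pow_val, ← map_pow, pow_card_eq_one', map_one, Units.val_one]

theorem xd (hα : ∀ p : Nat.Primes, ¬ (p : ℕ) ∣ f → ∀ j, ‖α p j‖ ≤ Real.sqrt (p : ℕ))
    (ψ : G →* ℂˣ) : XD (1 : ℝ) (qS f) (al f res α ψ) where
  two_le := two_le
  sum := fun σ hσ => qS_sum hσ
  norm_le := fun p j => by
    unfold al qS
    rw [norm_mul, norm_chi, mul_one, ← Real.sqrt_eq_rpow]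
    exact hα p.1 p.2 j

theorem coeff_elt (f : G → ℂ) (g : G) : (elt f).coeff g = f g := rfl

theorem ev_eq (χ : G →* ℂˣ) : ev χ = Pool.Agent.R409.RJ.ev χ := rfl

theorem ev_gexp (χ : G →* ℂˣ) (x : MonoidAlgebra ℂ G) : ev χ (gexp x) = Complex.exp (ev χ x) :=
  Pool.Agent.R409.RJ.ev_gexp χ x

/-- the character sum in terms of the element `N(X)` -/
theorem char_sum (ψ : G →* ℂˣ) (γ θ T : ℝ) :
    (∑ᶠ x ∈ PS f θ T, pterm (qS f) (shx 1 (qS f) (al f res α ψ)) γ T x.1 x.2) =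
      ev ψ (elt (count f res α γ θ T)) := by
  classical
  have : Fintype G := Fintype.ofFinite G
  have hterm : ∀ x : {p : Nat.Primes // ¬ (p : ℕ) ∣ f} × ℕ,
      pterm (qS f) (shx 1 (qS f) (al f res α ψ)) γ T x.1 x.2 =
        ((ψ (sg f res x.1.1 ^ x.2) : ℂˣ) : ℂ) *
          (weight γ (x.2 * Real.log ((x.1.1 : ℕ) : ℝ) / T) * (∑ j, α x.1.1 j ^ x.2) /
            (x.2 * ((x.1.1 : ℕ) : ℂ) ^ x.2)) := by
    intro x
    unfold pterm shx al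
    rw [weight_eq]
    unfold Pool.Agent.W187.S2.kk qS
    have h1 : ∀ j, (α x.1.1 j * ((ψ (sg f res x.1.1) : ℂˣ) : ℂ) *
        ((((x.1.1 : ℕ) : ℝ) : ℂ) ^ (-1 : ℂ))) ^ x.2 =
        (((ψ (sg f res x.1.1 ^ x.2) : ℂˣ) : ℂ) * ((((x.1.1 : ℕ) : ℂ)) ^ x.2)⁻¹) *
          α x.1.1 j ^ x.2 := by
      intro j
      rw [Complex.cpow_neg_one, mul_pow, mul_pow, inv_pow, map_pow, Units.val_pow_eq_pow_val]
      push_cast
      ring
    simp only [h1, ← Finset.mul_sum]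
    push_cast
    ring
  simp only [hterm]
  set Z := (PS_finite (f := f) θ T).toFinset with hZ
  have hZm : ∀ x, x ∈ Z ↔ x ∈ PS f θ T := fun x => Set.Finite.mem_toFinset _
  have hev : ev ψ (elt (count f res α γ θ T)) =
      ∑ σ : G, ((ψ σ : ℂˣ) : ℂ) * count f res α γ θ T σ := by
    rw [ev_eq, Pool.Agent.R409.RJ.ev_apply]
    refine Finset.sum_congr rfl fun σ _ => ?_
    rw [coeff_elt, mul_comm]
  rw [hev]
  have hcls : ∀ σ : G, count f res α γ θ T σ =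
      ∑ x ∈ Z, if sg f res x.1.1 ^ x.2 = σ then
        weight γ (x.2 * Real.log ((x.1.1 : ℕ) : ℝ) / T) * (∑ j, α x.1.1 j ^ x.2) /
            (x.2 * ((x.1.1 : ℕ) : ℂ) ^ x.2) else 0 := by
    intro σ
    unfold count
    rw [← Finset.sum_filter]
    refine finsum_mem_eq_sum_of_inter_support_eq _ ?_
    ext x
    simp only [Set.mem_inter_iff, Finset.coe_filter, Set.mem_ofPred_eq, hZm]
    unfold PS qS
    simp only [Set.mem_ofPred_eq]
    tauto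
  have hcls' : ∀ σ : G, ((ψ σ : ℂˣ) : ℂ) * count f res α γ θ T σ =
      ∑ x ∈ Z, ((ψ σ : ℂˣ) : ℂ) * (if sg f res x.1.1 ^ x.2 = σ then
        weight γ (x.2 * Real.log ((x.1.1 : ℕ) : ℝ) / T) * (∑ j, α x.1.1 j ^ x.2) /
            (x.2 * ((x.1.1 : ℕ) : ℂ) ^ x.2) else 0) := fun σ => by
    rw [hcls σ, Finset.mul_sum]
  simp only [hcls']
  rw [Finset.sum_comm]
  have hl : (∑ᶠ x ∈ PS f θ T, ((ψ (sg f res x.1.1 ^ x.2) : ℂˣ) : ℂ) *
      (weight γ (x.2 * Real.log ((x.1.1 : ℕ) : ℝ) / T) * (∑ j, α x.1.1 j ^ x.2) /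
            (x.2 * ((x.1.1 : ℕ) : ℂ) ^ x.2))) =
      ∑ x ∈ Z, ((ψ (sg f res x.1.1 ^ x.2) : ℂˣ) : ℂ) *
        (weight γ (x.2 * Real.log ((x.1.1 : ℕ) : ℝ) / T) * (∑ j, α x.1.1 j ^ x.2) /
            (x.2 * ((x.1.1 : ℕ) : ℂ) ^ x.2)) := by
    refine finsum_mem_eq_sum_of_inter_support_eq _ ?_
    ext x
    simp only [Set.mem_inter_iff, Finset.mem_coe, hZm]
  rw [hl]
  refine Finset.sum_congr rfl fun x _ => ?_
  simp

/-- the law for a character, with the value at `1` -/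
theorem law_char (hα : ∀ p : Nat.Primes, ¬ (p : ℕ) ∣ f → ∀ j, ‖α p j‖ ≤ Real.sqrt (p : ℕ))
    {ψ : G →* ℂˣ} {F : ℂ → ℂ} (hF : IsContinuation f res α ψ F) (γ θ : ℝ)
    (hγ : Real.pi / 2 < γ) (hθ : 1 / 2 < θ) :
    (fun X : ℝ => Complex.exp (ev ψ (elt (count f res α γ θ X))) - F 1) =O[atTop]
      fun X : ℝ => X⁻¹ := by
  obtain ⟨m, r₀, -, hm, hr, hlaw⟩ := (xd (res := res) hα ψ).law_at (F := F) 1
    (fun x h0 h1 => by
      have h2 : (1 : ℂ) + x = ((1 + x : ℝ) : ℂ) := by push_cast; rfl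
      rw [h2]
      refine hF.2.1 (1 + x) (by linarith) ?_
      rw [Complex.one_re] at h1
      linarith) (fun s hs => by
      rw [hF.2.2 s (by linarith)]
      unfold LFun qS al
      refine tprod_congr fun v => ?_
      push_cast
      rfl)
  have h1 := hlaw γ θ hγ (by rw [Complex.one_re]; linarith) (by linarith)
  have h2 : (fun T : ℝ => ev ψ (elt (count f res α γ θ T))) =
      fun T => ∑ᶠ x ∈ {x : {p : Nat.Primes // ¬ (p : ℕ) ∣ f} × ℕ | 1 ≤ x.2 ∧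
        qS f x.1 ^ x.2 ≤ Real.exp (Real.exp (θ * T))},
        pterm (qS f) (shx 1 (qS f) (al f res α ψ)) γ T x.1 x.2 := by
    funext T
    exact (char_sum ψ γ θ T).symm
  rw [← h2] at h1
  -- the value at 1
  have hm0 : (0 : ℤ) ≤ m ∧ F 1 = if m = (0 : ℕ) then Complex.exp r₀ else 0 := by
    have h3 := hm
    rw [hF.1.meromorphicOrderAt_eq] at h3
    cases h4 : analyticOrderAt F 1 with
    | top => rw [h4] at h3; exact absurd h3 (by simp)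
    | coe k =>
      rw [h4, ENat.map_natCast] at h3
      have h5 : ((k : ℤ) : WithTop ℤ) = m := h3
      have h6 : (k : ℤ) = m := by exact_mod_cast h5
      refine ⟨by omega, ?_⟩
      split_ifs with h7
      · have hk : k = 0 := by
          push_cast at h7
          omega
        rw [hk] at h4
        have h8 : F 1 ≠ 0 := hF.1.analyticOrderAt_eq_zero.1 (by exact_mod_cast h4)
        rw [hr, hF.1.meromorphicTrailingCoeffAt_of_ne_zero h8]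
      · by_contra h8
        have h9 : analyticOrderAt F 1 = 0 := hF.1.analyticOrderAt_eq_zero.2 h8
        rw [h4] at h9
        have h10 : k = 0 := by exact_mod_cast h9
        apply h7
        push_cast
        omega
  have h3 := Pool.Agent.R409.RJ.law_rate h1 (r := 0) (by
    push_cast
    exact hm0.1)
  refine h3.congr_left fun X => ?_
  rw [hm0.2]
  simp

end bridge

/-- **Deligne's conjecture for twists as a rationality of limits.** Let `G` be a finite abelian group,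
`res : (ℤ/f)ˣ → G` a homomorphism (for an abelian field `F` of conductor `f` with group `G`: the
restriction of `σ_a` to `F`), `α_{p,j}` complex numbers with `|α_{p,j}| ≤ √p` (for an abelian variety
`A/ℚ` of dimension `d`: `P_p(A, t) = ∏_j (1 - α_{p,j} t)`), and for the characters `ψ` of `G` let `F ψ`
be a continuation of `L_C(A, ψ, s)`. For `Ω ∈ ℂ` (the period `Ω_A^+`) there is `𝓛 ∈ ℂ[G]` such that

* `ψ(𝓛) = 𝓛_C(A, ψ)` for all `ψ`;
* `τ^d exp (N(X)) / Ω = 𝓛 + O(1/X)`, coefficient by coefficient, for all `γ > π/2`, `κ > 1/2`;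
* `g(𝓛_C(A, ψ)) = 𝓛_C(A, g ∘ ψ)` for all automorphisms `g` of `ℂ` and all `ψ` (Q1 for `A` and `F`) if
  and only if the coefficients of `τ^d exp (N(X)) / Ω` tend to rational numbers along one sequence
  `X → ∞`, for one choice of `γ`, `κ`. -/
theorem result (G : Type) [CommGroup G] [Finite G] (f : ℕ) [NeZero f] (res : (ZMod f)ˣ →* G)
    (d n : ℕ) (α : ℕ → Fin n → ℂ)
    (_ : ∀ p : Nat.Primes, ¬ (p : ℕ) ∣ f → ∀ j, ‖α p j‖ ≤ Real.sqrt (p : ℕ))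
    (F : (G →* ℂˣ) → ℂ → ℂ) (_ : ∀ ψ, IsContinuation f res α ψ (F ψ)) (Ω : ℂ) :
    ∃ Th : MonoidAlgebra ℂ G,
      (∀ ψ : G →* ℂˣ, ev ψ Th = calL f res d Ω F ψ) ∧
      (∀ γ κ : ℝ, Real.pi / 2 < γ → 1 / 2 < κ → ∀ σ,
        (fun X : ℝ => (approx f res α d Ω γ κ X).coeff σ - Th.coeff σ) =O[atTop]
          fun X : ℝ => X⁻¹) ∧
      ((∀ (g : ℂ ≃+* ℂ) (ψ : G →* ℂˣ), g (calL f res d Ω F ψ) = calL f res d Ω F (conj g ψ)) ↔
        ∃ (γ κ : ℝ) (X : ℕ → ℝ), Real.pi / 2 < γ ∧ 1 / 2 < κ ∧ Tendsto X atTop atTop ∧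
          ∀ σ, ∃ x : ℚ, Tendsto (fun k => (approx f res α d Ω γ κ (X k)).coeff σ) atTop
            (𝓝 (x : ℂ))) := by
  classical
  rename_i hα hF
  have : Fintype G := Fintype.ofFinite G
  have : Fintype (G →* ℂˣ) := Fintype.ofFinite _
  have hpi : Real.pi / 2 < Real.pi := by linarith [Real.pi_pos]
  obtain ⟨Th, hTh⟩ := Pool.Agent.R409.RJ.exists_ev (G := G) (calL f res d Ω F)
  have hTh' : ∀ ψ : G →* ℂˣ, ev ψ Th = calL f res d Ω F ψ := hTh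
  have hgauss : ∀ ψ : G →* ℂˣ, ev ψ (gaussEl f res) = gauss f res ψ⁻¹ := by
    intro ψ
    unfold gaussEl gauss
    rw [map_sum]
    refine Finset.sum_congr rfl fun a _ => ?_
    unfold ev
    rw [MonoidAlgebra.lift_single, smul_eq_mul, MonoidHom.inv_apply]
    simp [mul_comm]
  have hval : ∀ γ κ : ℝ, Real.pi / 2 < γ → 1 / 2 < κ → ∀ ψ : G →* ℂˣ,
      (fun X : ℝ => ev ψ (approx f res α d Ω γ κ X) - ev ψ Th) =O[atTop] fun X : ℝ => X⁻¹ := by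
    intro γ κ hγ hκ ψ
    have h1 := (law_char hα (hF ψ) γ κ hγ hκ).const_mul_left (Ω⁻¹ * gauss f res ψ⁻¹ ^ d)
    refine h1.congr_left fun X => ?_
    rw [hTh']
    unfold approx calL
    rw [map_smul, map_mul, map_pow, hgauss, ev_gexp, smul_eq_mul]
    ring
  have hco : ∀ γ κ : ℝ, Real.pi / 2 < γ → 1 / 2 < κ → ∀ σ,
      (fun X : ℝ => (approx f res α d Ω γ κ X).coeff σ - Th.coeff σ) =O[atTop]
        fun X : ℝ => X⁻¹ := by
    intro γ κ hγ hκ σ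
    have h3 : (fun X : ℝ => (Nat.card G : ℂ)⁻¹ * ∑ ψ : G →* ℂˣ, ((ψ σ : ℂˣ) : ℂ)⁻¹ *
        (ev ψ (approx f res α d Ω γ κ X) - ev ψ Th)) =O[atTop] fun X : ℝ => X⁻¹ :=
      IsBigO.const_mul_left (IsBigO.fun_sum fun ψ _ =>
        IsBigO.const_mul_left (hval γ κ hγ hκ ψ) _) _
    refine h3.congr_left fun X => ?_
    rw [Pool.Agent.R409.RJ.coeff_eq, Pool.Agent.R409.RJ.coeff_eq Th σ, ← mul_sub,
      ← Finset.sum_sub_distrib]
    congr 1
    exact Finset.sum_congr rfl fun ψ _ => by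
      rw [mul_sub]
      rfl
  have hlim : ∀ γ κ : ℝ, Real.pi / 2 < γ → 1 / 2 < κ → ∀ σ,
      Tendsto (fun X : ℝ => (approx f res α d Ω γ κ X).coeff σ) atTop (𝓝 (Th.coeff σ)) := by
    intro γ κ hγ hκ σ
    have h2 := ((hco γ κ hγ hκ σ).trans_tendsto tendsto_inv_atTop_zero).add_const (Th.coeff σ)
    simpa using h2
  have hrat := Pool.Agent.R409.RJ.rational_iff Th
  refine ⟨Th, hTh', hco, ?_⟩
  have h0 : (∀ (g : ℂ ≃+* ℂ) (ψ : G →* ℂˣ),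
      g (calL f res d Ω F ψ) = calL f res d Ω F (conj g ψ)) ↔
      ∀ (τ : ℂ ≃+* ℂ) (ψ : G →* ℂˣ), τ (Pool.Agent.R409.RJ.ev ψ Th) =
        Pool.Agent.R409.RJ.ev (Pool.Agent.R409.RJ.conj τ ψ) Th := by
    simp only [hTh]
    rfl
  rw [h0, ← hrat]
  constructor
  · intro h
    refine ⟨Real.pi, 1, fun k => k, hpi, by norm_num, tendsto_natCast_atTop_atTop, fun σ => ?_⟩
    obtain ⟨x, hx⟩ := h σ
    refine ⟨x, ?_⟩
    rw [← hx]
    exact (hlim Real.pi 1 hpi (by norm_num) σ).comp tendsto_natCast_atTop_atTop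
  · rintro ⟨γ, κ, X, hγ, hκ, hX, h⟩ σ
    obtain ⟨x, hx⟩ := h σ
    exact ⟨x, tendsto_nhds_unique ((hlim γ κ hγ hκ σ).comp hX) hx⟩

end Pool.Agent.Results.MP_21281f_nt.RationalLimits
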